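import Pool.Agent.helper99.VN.SpecU
import Pool.Agent.helper61.VQ.CNV

/-!
# MP_07c750_an, project VN, row BOXN: boxes
-/

set_option autoImplicit false

open scoped MatrixGroups ContDiff Topology UpperHalfPlane ComplexConjugate ENNReal
open UpperHalfPlane MeasureTheory Filter Set

namespace Pool.Agent.VN

open Pool.Agent.RS Pool.Agent.VQ

theorem BOXN_iff (a : ℝ) (b : SL(2, ℝ)) : b ∈ Bo a ↔ EN.nr a b ∨ EN.nr a (-b) := by
  have h : ∀ i j : Fin 2, |(-b).1 i j - (1 : Matrix (Fin 2) (Fin 2) ℝ) i j| = |b.1 i j + (1 : Matrix (Fin 2) (Fin 2) ℝ) i j| := by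
    intro i j
    have h1 : (-b).1 i j = -(b.1 i j) := by
      rw [Matrix.SpecialLinearGroup.coe_neg]
      rfl
    rw [h1, ← abs_neg]
    congr 1
    ring
  unfold EN.nr
  simp only [h]
  rfl

theorem BOXN_inv {a : ℝ} {b : SL(2, ℝ)} (h : EN.nr a b) : EN.nr a b⁻¹ := by
  have e : (b⁻¹).1 = !![b.1 1 1, -b.1 0 1; -b.1 1 0, b.1 0 0] := by
    rw [Matrix.SpecialLinearGroup.SL2_inv_expl]
    rfl
  have h00 := h 0 0
  have h01 := h 0 1
  have h10 := h 1 0
  have h11 := h 1 1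
  simp only [Matrix.one_apply_eq, Matrix.one_apply_ne (show (0 : Fin 2) ≠ 1 by decide),
    Matrix.one_apply_ne (show (1 : Fin 2) ≠ 0 by decide), sub_zero] at h00 h01 h10 h11
  intro i j
  rw [e]
  fin_cases i <;> fin_cases j
  · simpa using h11
  · simpa using h01
  · simpa using h10
  · simpa using h00

theorem BOXN_k {a : ℝ} {b : SL(2, ℝ)} (h : EN.nr a b) : EN.nr a ((kM (Real.pi / 2))⁻¹ * b * kM (Real.pi / 2)) := by
  have e1 : (kM (Real.pi / 2)).1 = !![0, 1; -1, 0] := by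
    simp [kM]
  have e2 : ((kM (Real.pi / 2))⁻¹).1 = !![0, -1; 1, 0] := by
    rw [Matrix.SpecialLinearGroup.SL2_inv_expl]
    show !![(kM (Real.pi / 2)).1 1 1, -(kM (Real.pi / 2)).1 0 1; -(kM (Real.pi / 2)).1 1 0, (kM (Real.pi / 2)).1 0 0] = _
    rw [e1]
    simp
  have e : ((kM (Real.pi / 2))⁻¹ * b * kM (Real.pi / 2)).1 = !![b.1 1 1, -b.1 1 0; -b.1 0 1, b.1 0 0] := by
    have h1 : ((kM (Real.pi / 2))⁻¹ * b * kM (Real.pi / 2)).1 = ((kM (Real.pi / 2))⁻¹).1 * b.1 * (kM (Real.pi / 2)).1 := rfl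
    rw [h1, e1, e2]
    ext i j
    fin_cases i <;> fin_cases j <;> simp [Matrix.mul_apply, Matrix.vecMul, dotProduct, Fin.sum_univ_two]
  have h00 := h 0 0
  have h01 := h 0 1
  have h10 := h 1 0
  have h11 := h 1 1
  simp only [Matrix.one_apply_eq, Matrix.one_apply_ne (show (0 : Fin 2) ≠ 1 by decide),
    Matrix.one_apply_ne (show (1 : Fin 2) ≠ 0 by decide), sub_zero] at h00 h01 h10 h11
  intro i j
  rw [e]
  fin_cases i <;> fin_cases j
  · simpa using h11
  · simpa using h10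
  · simpa using h01
  · simpa using h00

theorem BOXN_ki {a : ℝ} {b : SL(2, ℝ)} (h : EN.nr a b) (i : ℕ) : EN.nr a ((kM (i * (Real.pi / 2)))⁻¹ * b * kM (i * (Real.pi / 2))) := by
  induction i with
  | zero =>
    rw [CNV_kz]
    simpa using h
  | succ i ih =>
    rw [CNV_ks]
    have h1 := BOXN_k ih
    have e : (kM (i * (Real.pi / 2)) * kM (Real.pi / 2))⁻¹ * b * (kM (i * (Real.pi / 2)) * kM (Real.pi / 2)) =
        (kM (Real.pi / 2))⁻¹ * ((kM (i * (Real.pi / 2)))⁻¹ * b * kM (i * (Real.pi / 2))) * kM (Real.pi / 2) := by group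
    rw [e]
    exact h1

theorem BOXN_dist (b : SL(2, ℝ)) (h : b ∈ Bo (1 / 8)) : dist (b • I : ℍ) I ≤ 1 := by
  have h1 : |b.1 0 0 - b.1 1 1| ≤ 2 * (1 / 8) ∧ |b.1 0 1 + b.1 1 0| ≤ 2 * (1 / 8) := by
    rcases h with h | h
    · have h00 := h 0 0
      have h01 := h 0 1
      have h10 := h 1 0
      have h11 := h 1 1
      simp only [Matrix.one_apply_eq, Matrix.one_apply_ne (show (0 : Fin 2) ≠ 1 by decide),
        Matrix.one_apply_ne (show (1 : Fin 2) ≠ 0 by decide), sub_zero, abs_lt] at h00 h01 h10 h11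
      constructor <;> rw [abs_le] <;> constructor <;> linarith [h00.1, h00.2, h01.1, h01.2, h10.1, h10.2, h11.1, h11.2]
    · have h00 := h 0 0
      have h01 := h 0 1
      have h10 := h 1 0
      have h11 := h 1 1
      simp only [Matrix.one_apply_eq, Matrix.one_apply_ne (show (0 : Fin 2) ≠ 1 by decide),
        Matrix.one_apply_ne (show (1 : Fin 2) ≠ 0 by decide), add_zero, abs_lt] at h00 h01 h10 h11
      constructor <;> rw [abs_le] <;> constructor <;> linarith [h00.1, h00.2, h01.1, h01.2, h10.1, h10.2, h11.1, h11.2]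
  have h2 := CNV_le b (by norm_num : (0 : ℝ) ≤ 1 / 8) h1.1 h1.2
  linarith

theorem BOXN_proof : BOXN_stmt := by
  refine ⟨?_, ?_, ?_, ?_, ?_, ?_, BOXN_dist, ?_⟩
  · intro a b h
    exact (BOXN_iff a b).2 (Or.inl h)
  · intro a a' b haa h
    rw [BOXN_iff] at h ⊢
    exact h.imp (CNV_mono haa) (CNV_mono haa)
  · intro a a' b c ha ha' hb hc
    rw [BOXN_iff] at hb hc ⊢
    rcases hb with hb | hb <;> rcases hc with hc | hc
    · exact Or.inl (CNV_mul ha hb hc)
    · right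
      have h1 := CNV_mul ha hb hc
      rwa [mul_neg] at h1
    · right
      have h1 := CNV_mul ha hb hc
      rwa [neg_mul] at h1
    · left
      have h1 := CNV_mul ha hb hc
      rwa [neg_mul_neg] at h1
  · intro a b h
    rw [BOXN_iff] at h ⊢
    rcases h with h | h
    · exact Or.inl (BOXN_inv h)
    · right
      have h1 := BOXN_inv h
      have h2 : (-b)⁻¹ = -b⁻¹ := inv_eq_of_mul_eq_one_right (by rw [neg_mul_neg, mul_inv_cancel])
      rwa [h2] at h1
  · intro a ha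
    exact (BOXN_iff a 1).2 (Or.inl (CNV_one ha))
  · intro a b i h
    rw [BOXN_iff] at h ⊢
    rcases h with h | h
    · exact Or.inl (BOXN_ki h i)
    · right
      have h1 := BOXN_ki h i
      rwa [mul_neg, neg_mul] at h1
  · intro g h hb
    rw [CNV_dist]
    exact BOXN_dist _ hb

end Pool.Agent.VN
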