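import Pool.Agent.helper84.VN.Spec4n
import Pool.Agent.helper14.VQE.NMB

/-!
# MP_07c750_an, project VN, row GF4: small steps follow the big step
-/

set_option autoImplicit false

open scoped MatrixGroups ContDiff Topology UpperHalfPlane ComplexConjugate ENNReal
open UpperHalfPlane MeasureTheory Filter Set

namespace Pool.Agent.VN

open Pool.Agent.RS Pool.Agent.VQ
open Pool.Agent.VQE (nm)

noncomputable section

/-- one step of the induction, numbers -/
theorem GF4_num (K1 t ε d X J N i : ℝ) (hε : 0 ≤ ε) (ht : 0 ≤ t) (hK : 1 ≤ K1) (hi : 0 ≤ i) (hX0 : 0 ≤ X) (hd : d ≤ 4 * i * ε * Real.exp (K1 * (i * t)))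
    (hX : X ≤ (d + ε) * Real.exp (K1 * t)) (hJ : J ≤ ε) (hs : 4 * (i + 1) * ε * Real.exp (K1 * ((i + 1) * t)) ≤ 1)
    (hN : N ≤ X + J + 2 * X * J) : N ≤ 4 * (i + 1) * ε * Real.exp (K1 * ((i + 1) * t)) := by
  obtain ⟨a, ha⟩ : ∃ a, a = Real.exp (K1 * (i * t)) := ⟨_, rfl⟩
  obtain ⟨b, hb⟩ : ∃ b, b = Real.exp (K1 * t) := ⟨_, rfl⟩
  have e1 : Real.exp (K1 * ((i + 1) * t)) = a * b := by
    rw [ha, hb, ← Real.exp_add]
    congr 1
    ring
  have ha1 : 1 ≤ a := by rw [ha]; exact Real.one_le_exp (by positivity)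
  have hb1 : 1 ≤ b := by rw [hb]; exact Real.one_le_exp (by positivity)
  have hab : 1 ≤ a * b := by nlinarith
  have hab' : b ≤ a * b := by nlinarith
  rw [e1] at hs ⊢
  rw [← ha] at hd
  rw [← hb] at hX
  have h1 : X ≤ (4 * i * ε * a + ε) * b := hX.trans (mul_le_mul_of_nonneg_right (by linarith) (by linarith))
  have h2 : ε * b ≤ ε * (a * b) := mul_le_mul_of_nonneg_left hab' hε
  have h3 : ε ≤ ε * (a * b) := by nlinarith
  have h4 : X ≤ 4 * i * ε * (a * b) + ε * (a * b) := by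
    have : (4 * i * ε * a + ε) * b = 4 * i * ε * (a * b) + ε * b := by ring
    linarith
  have h5 : 4 * (i + 1) * ε * (a * b) = 4 * i * ε * (a * b) + 4 * (ε * (a * b)) := by ring
  have h6 : 0 ≤ ε * (a * b) := by positivity
  have hX1 : X ≤ 1 := by linarith
  have h7 : 2 * X * J ≤ 2 * ε := by nlinarith
  linarith

theorem GF4_proof (hGN4 : GN4_stmt) : GF4_stmt := by
  intro k C
  obtain ⟨K1, hK1, h1⟩ := hGN4 k C
  refine ⟨K1 + 4, by linarith, ?_⟩
  intro D hD t ε n w ht hε hsm hw hen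
  have hexp : ∀ i : ℕ, i ≤ n → 4 * (i : ℝ) * ε * Real.exp (K1 * (i * t)) ≤ 4 * ((n + 1) * ε * Real.exp ((K1 + 4) * (n * t))) := by
    intro i hi
    have hin : (i : ℝ) ≤ n := by exact_mod_cast hi
    have h2 : K1 * (i * t) ≤ (K1 + 4) * (n * t) := by
      have h3 : (i : ℝ) * t ≤ n * t := mul_le_mul_of_nonneg_right hin ht
      have h4 : 0 ≤ (i : ℝ) * t := by positivity
      nlinarith
    have h3 := Real.exp_le_exp.2 h2
    have h4 : (i : ℝ) * ε ≤ (n + 1) * ε := mul_le_mul_of_nonneg_right (by linarith) hε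
    have h5 : (i : ℝ) * ε * Real.exp (K1 * (i * t)) ≤ (n + 1) * ε * Real.exp ((K1 + 4) * (n * t)) := mul_le_mul h4 h3 (Real.exp_pos _).le (by positivity)
    linarith
  have hpos : 0 ≤ ((n : ℝ) + 1) * ε * Real.exp ((K1 + 4) * (n * t)) := by positivity
  have h4K : 4 * (((n : ℝ) + 1) * ε * Real.exp ((K1 + 4) * (n * t))) ≤ (K1 + 4) * (((n : ℝ) + 1) * ε * Real.exp ((K1 + 4) * (n * t))) :=
    mul_le_mul_of_nonneg_right (by linarith) hpos
  have hk4 : 4 * k / 4 = k := by ring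
  have key : ∀ i : ℕ, i ≤ n → nm ((D.fl (w 0).2 (i * t) (w 0).1)⁻¹ * (w i).1) ≤ 4 * (i : ℝ) * ε * Real.exp (K1 * (i * t)) := by
    intro i
    induction i with
    | zero =>
      intro _
      have h2 : D.fl (w 0).2 (((0 : ℕ) : ℝ) * t) (w 0).1 = (w 0).1 := by
        rw [Nat.cast_zero, zero_mul, hD.zero]
      rw [h2, inv_mul_cancel]
      rw [(VQE.NMB_zero 1).2 rfl]
      simp
    | succ i ih =>
      intro hi
      have hi' : i < n := by omega
      have h2 := ih (by omega)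
      have hE0 : |(w 0).2| ≤ k := by
        have := hw.en 0 (by omega)
        rwa [hk4] at this
      have hEi : |(w i).2| ≤ k := by
        have := hw.en i (by omega)
        rwa [hk4] at this
      have h3 := h1 D hD (w 0).2 (w i).2 t ε (D.fl (w 0).2 (i * t) (w 0).1) (w i).1 hE0 hEi (hen i (by omega))
      rw [abs_of_nonneg ht] at h3
      have h4 := (hw.st i hi').1
      have e1 : D.fl (w 0).2 (((i + 1 : ℕ) : ℝ) * t) (w 0).1 = D.fl (w 0).2 t (D.fl (w 0).2 (i * t) (w 0).1) := by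
        rw [← hD.add _ _ _ _ hE0]
        congr 1
        push_cast
        ring
      have e2 : (D.fl (w 0).2 (((i + 1 : ℕ) : ℝ) * t) (w 0).1)⁻¹ * (w (i + 1)).1 =
          Xt D (w 0).2 (w i).2 (D.fl (w 0).2 (i * t) (w 0).1) (w i).1 t * ((D.fl (w i).2 t (w i).1)⁻¹ * (w (i + 1)).1) := by
        rw [e1]
        unfold Xt
        group
      rw [e2]
      have h5 := VQE.NMB_sub (Xt D (w 0).2 (w i).2 (D.fl (w 0).2 (i * t) (w 0).1) (w i).1 t) ((D.fl (w i).2 t (w i).1)⁻¹ * (w (i + 1)).1)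
      have h6 := hexp (i + 1) hi
      push_cast at h6 ⊢
      exact GF4_num K1 t ε _ _ _ _ i hε ht hK1 (by positivity) (VQE.NMB_nonneg _) h2 h3 h4 (h6.trans (h4K.trans hsm)) h5
  intro i hi
  exact (key i hi).trans ((hexp i hi).trans h4K)

end

end Pool.Agent.VN
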