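import Pool.Agent.helper93.VN.SpecL

/-!
# Project VN, row LIA: iteration of the domination (after the row RIA of helper59)
-/

set_option autoImplicit false

open scoped MatrixGroups ContDiff Topology UpperHalfPlane ComplexConjugate ENNReal
open UpperHalfPlane MeasureTheory Filter Set

namespace Pool.Agent.VN

open Pool.Agent.RS Pool.Agent.VQ


theorem LIA_proof (hDON : DON_stmt) (hLMS : LMS_stmt) : LIA_stmt := by
  intro Γ ch k B hΓ hch hk
  obtain ⟨C1, hC1, h1⟩ := hDON Γ ch k B hΓ hch hk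
  refine ⟨C1, hC1, fun A hA => ?_⟩
  obtain ⟨R1, hR1, g1⟩ := h1 A hA
  refine ⟨R1, hR1, fun R D hR hD V hV => ?_⟩
  have hR0 : (1 : ℝ) ≤ R := hR1.trans hR
  have hRpos : 0 < R := by linarith
  obtain ⟨-, hPV, -⟩ := hLMS Γ k B D hD
  have hr0 : 0 ≤ r2 A R := by
    unfold r2
    positivity
  have hmeas : ∀ n : ℕ, Measurable ((PVN D A R)^[n] V) := by
    intro n
    induction n with
    | zero => exact hV
    | succ n ih =>
      rw [Function.iterate_succ_apply']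
      exact hPV A R _ ih
  set K : ℝ≥0∞ := ENNReal.ofReal (R ^ (4 + C1 * A.z2)) with hKdef
  have hKtop : K ≠ ⊤ := ENNReal.ofReal_ne_top
  intro n
  induction n with
  | zero =>
    intro p hp
    simp [qZ]
  | succ n ih =>
    intro p hp
    have hwin : p.2 ∈ Wi (3 / 2) R := by
      have h5 : |p.2| ≤ 3 / 2 * R ^ (-(1 / 4) : ℝ) := by
        have : (0 : ℝ) ≤ ((n + 1 : ℕ) : ℝ) * r2 A R := by positivity
        linarith
      exact abs_le.1 h5
    change ∫⁻ y, ‖ub D ch A R p y‖ₑ ^ 2 * qZ (mW R) (fun x y => ‖ub D ch A R x y‖ₑ) n V y ∂mW R ≤ _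
    have hstep : ∀ y : SL(2, ℝ) × ℝ, ‖ub D ch A R p y‖ₑ ^ 2 * qZ (mW R) (fun x y => ‖ub D ch A R x y‖ₑ) n V y ≤
        K ^ n * (‖ub D ch A R p y‖ₑ ^ 2 * (PVN D A R)^[n] V y) := by
      intro y
      by_cases hy : ub D ch A R p y = 0
      · rw [hy]
        simp
      · have h6 := (g1 R D hR hD p V hwin hV).1 y hy
        have h7 : |y.2| ≤ |p.2| + r2 A R := by
          have h8 : |y.2| - |p.2| ≤ |y.2 - p.2| := abs_sub_abs_le_abs_sub _ _
          linarith
        have h9 : |y.2| + n * r2 A R ≤ 3 / 2 * R ^ (-(1 / 4) : ℝ) := by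
          push_cast at hp
          linarith
        calc ‖ub D ch A R p y‖ₑ ^ 2 * qZ (mW R) (fun x y => ‖ub D ch A R x y‖ₑ) n V y
            ≤ ‖ub D ch A R p y‖ₑ ^ 2 * (K ^ n * (PVN D A R)^[n] V y) := mul_le_mul_right (ih y h9) _
          _ = K ^ n * (‖ub D ch A R p y‖ₑ ^ 2 * (PVN D A R)^[n] V y) := by ring
    calc ∫⁻ y, ‖ub D ch A R p y‖ₑ ^ 2 * qZ (mW R) (fun x y => ‖ub D ch A R x y‖ₑ) n V y ∂mW R
        ≤ ∫⁻ y, K ^ n * (‖ub D ch A R p y‖ₑ ^ 2 * (PVN D A R)^[n] V y) ∂mW R := lintegral_mono hstep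
      _ = K ^ n * ∫⁻ y, ‖ub D ch A R p y‖ₑ ^ 2 * (PVN D A R)^[n] V y ∂mW R :=
          lintegral_const_mul' _ _ (ENNReal.pow_ne_top hKtop)
      _ ≤ K ^ n * (K * PVN D A R ((PVN D A R)^[n] V) p) :=
          mul_le_mul_right (g1 R D hR hD p _ hwin (hmeas n)).2 _
      _ = K ^ (n + 1) * (PVN D A R)^[n + 1] V p := by
          rw [Function.iterate_succ_apply']
          ring

end Pool.Agent.VN
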