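import Pool.Agent.helper74.VN.SpecC
import Pool.Agent.helper63.VQ.VMA
import Pool.Agent.helper89.VQ.VSA

/-!
# MP_07c750_an, project VN, row NAD: one small step of the kernel
-/

set_option autoImplicit false

open scoped MatrixGroups ContDiff Topology UpperHalfPlane ComplexConjugate ENNReal
open UpperHalfPlane MeasureTheory Filter Set

namespace Pool.Agent.VN

open Pool.Agent.RS Pool.Agent.VQ

noncomputable section

/-- the trivial group -/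
theorem NAD_bot {Γ : Subgroup SL(2, ℝ)} {k : ℝ} {B : ℕ → ℝ} {D : Dyn} (h : OKN Γ k B D) : OKN ⊥ k B D :=
  { h with
    pot :=
      { h.pot with
        inv := by
          refine ⟨h.pot.inv.1, fun γ z => ?_⟩
          have h1 : γ = 1 := Subsingleton.elim _ _
          rw [h1, one_smul] } }

/-- elements of `Pk` are bounded -/
theorem NAD_pk {K : ℕ} {η m R ρ : ℝ} {f : ℂ → ℂ} (h : Pk K η m R ρ f) (v : ℂ) : ‖f v‖ ≤ m := by
  obtain ⟨A, -, -, h2, h3⟩ := h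
  rw [h3 v, norm_mul, Complex.norm_exp_ofReal_mul_I, one_mul]
  have h4 := h2 0 (Nat.zero_le _) v
  rwa [norm_iteratedFDeriv_zero, pow_zero, mul_one] at h4

/-- comparison of two integrals on phase space -/
theorem NAD_int {X : Type} [MeasurableSpace X] (μ : Measure X) (W : Set X) (hW : MeasurableSet W) (u a0 a1 : X → ℂ)
    (hu : Measurable u) (h0 : Measurable a0) (h1 : Measurable a1) (bu b0 b1 ε V : ℝ)
    (hbu : ∀ x, ‖u x‖ ≤ bu) (hb0 : ∀ x, ‖a0 x‖ ≤ b0) (hb1 : ∀ x, ‖a1 x‖ ≤ b1) (hb10 : 0 ≤ b1) (hV : 0 ≤ V) (hε : 0 ≤ ε)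
    (huW : ∀ x, x ∉ W → u x = 0) (hS : μ {x | a1 x ≠ 0} ≤ ENNReal.ofReal V) (hd : ∀ x ∈ W, ‖u x - conj (a0 x)‖ ≤ ε) :
    ‖∫ x, u x * a1 x ∂μ - ∫ x in W, a1 x * conj (a0 x) ∂μ‖ ≤ ε * b1 * V := by
  obtain ⟨S, hSe⟩ : ∃ S, S = {x | a1 x ≠ 0} := ⟨_, rfl⟩
  rw [← hSe] at hS
  have hSm : MeasurableSet S := by
    rw [hSe]
    exact (h1 (measurableSet_singleton (0 : ℂ))).compl
  have hSf : μ S < ⊤ := lt_of_le_of_lt hS ENNReal.ofReal_lt_top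
  have hS0 : ∀ x, x ∉ S → a1 x = 0 := by
    intro x hx
    by_contra h
    exact hx (by rw [hSe]; exact h)
  have hWS : MeasurableSet (W ∩ S) := hW.inter hSm
  have hWSf : μ (W ∩ S) < ⊤ := lt_of_le_of_lt (measure_mono inter_subset_right) hSf
  have hcm : Measurable fun x => conj (a0 x) := Complex.continuous_conj.measurable.comp h0
  have i1 : IntegrableOn (fun x => u x * a1 x) (W ∩ S) μ := by
    refine Measure.integrableOn_of_bounded (M := bu * b1) hWSf.ne (hu.mul h1).aestronglyMeasurable (Eventually.of_forall fun x => ?_)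
    rw [norm_mul]
    exact mul_le_mul (hbu x) (hb1 x) (norm_nonneg _) ((norm_nonneg _).trans (hbu x))
  have i2 : IntegrableOn (fun x => a1 x * conj (a0 x)) (W ∩ S) μ := by
    refine Measure.integrableOn_of_bounded (M := b1 * b0) hWSf.ne (h1.mul hcm).aestronglyMeasurable (Eventually.of_forall fun x => ?_)
    rw [norm_mul, RCLike.norm_conj]
    exact mul_le_mul (hb1 x) (hb0 x) (norm_nonneg _) ((norm_nonneg _).trans (hb1 x))
  have e1 : ∫ x in W ∩ S, u x * a1 x ∂μ = ∫ x, u x * a1 x ∂μ := by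
    refine setIntegral_eq_integral_of_forall_compl_eq_zero fun x hx => ?_
    by_cases hxW : x ∈ W
    · have hxS : x ∉ S := fun h => hx ⟨hxW, h⟩
      rw [hS0 x hxS, mul_zero]
    · rw [huW x hxW, zero_mul]
  have e2 : ∫ x in W ∩ S, a1 x * conj (a0 x) ∂μ = ∫ x in W, a1 x * conj (a0 x) ∂μ := by
    refine (setIntegral_eq_of_subset_of_forall_sdiff_eq_zero hW inter_subset_left fun x hx => ?_).symm
    have hxS : x ∉ S := fun h => hx.2 ⟨hx.1, h⟩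
    rw [hS0 x hxS, zero_mul]
  rw [← e1, ← e2, ← integral_sub i1 i2]
  have h3 : ‖∫ x in W ∩ S, (u x * a1 x - a1 x * conj (a0 x)) ∂μ‖ ≤ ε * b1 * μ.real (W ∩ S) := by
    refine norm_setIntegral_le_of_norm_le_const hWSf fun x hx => ?_
    have e3 : u x * a1 x - a1 x * conj (a0 x) = (u x - conj (a0 x)) * a1 x := by ring
    rw [e3, norm_mul]
    exact mul_le_mul (hd x hx.1) (hb1 x) (norm_nonneg _) hε
  refine h3.trans ?_
  refine mul_le_mul_of_nonneg_left ?_ (mul_nonneg hε hb10)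
  unfold Measure.real
  refine ENNReal.toReal_le_of_le_ofReal hV ?_
  exact (measure_mono inter_subset_right).trans hS

/-- the numbers -/
theorem NAD_num (k V : ℝ) (hk : 0 < k) : ∃ R0 : ℝ, 1 ≤ R0 ∧ ∀ R : ℝ, R0 ≤ R → 2 * R ^ (-(1 / 4) : ℝ) ≤ k ∧ R ^ (-(1 / 4) : ℝ) ≤ 1 / 4 ∧
    (R ^ (-8 : ℝ) * (8 * R ^ (1 / 2 : ℝ)) + R ^ (-8 : ℝ)) * R ^ (3 : ℝ) * V + R ^ (9 / 5 : ℝ) ≤ R ^ (15 / 8 : ℝ) := by
  have h1 : Tendsto (fun R : ℝ => R ^ (-(1 / 4) : ℝ)) atTop (𝓝 0) := tendsto_rpow_neg_atTop (by norm_num)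
  have h2 : Tendsto (fun R : ℝ => R ^ (3 / 40 : ℝ)) atTop atTop := tendsto_rpow_atTop (by norm_num)
  have h3 : ∀ᶠ R : ℝ in atTop, R ^ (-(1 / 4) : ℝ) ≤ min (k / 2) (1 / 4) :=
    (h1.eventually (gt_mem_nhds (lt_min (half_pos hk) (by norm_num)))).mono fun R hR => le_of_lt hR
  have h4 : ∀ᶠ R : ℝ in atTop, 1 + 9 * |V| ≤ R ^ (3 / 40 : ℝ) := h2.eventually (eventually_ge_atTop _)
  obtain ⟨R1, hR1⟩ := eventually_atTop.1 (h3.and h4)
  refine ⟨max R1 1, le_max_right _ _, fun R hR => ?_⟩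
  obtain ⟨g1, g2⟩ := hR1 R ((le_max_left _ _).trans hR)
  have hR1 : 1 ≤ R := (le_max_right _ _).trans hR
  have hR0 : 0 < R := by linarith
  have g3 := g1.trans (min_le_left _ _)
  have g4 := g1.trans (min_le_right _ _)
  refine ⟨by linarith, g4, ?_⟩
  have e1 : R ^ (15 / 8 : ℝ) = R ^ (3 / 40 : ℝ) * R ^ (9 / 5 : ℝ) := by
    rw [← Real.rpow_add hR0]
    norm_num
  have e2 : R ^ (-8 : ℝ) * (8 * R ^ (1 / 2 : ℝ)) * R ^ (3 : ℝ) = 8 * R ^ (-(9 / 2) : ℝ) := by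
    have : R ^ (-(9 / 2) : ℝ) = R ^ (-8 : ℝ) * R ^ (1 / 2 : ℝ) * R ^ (3 : ℝ) := by
      rw [← Real.rpow_add hR0, ← Real.rpow_add hR0]
      norm_num
    rw [this]
    ring
  have e3 : R ^ (-8 : ℝ) * R ^ (3 : ℝ) = R ^ (-5 : ℝ) := by
    rw [← Real.rpow_add hR0]
    norm_num
  have g5 : R ^ (-(9 / 2) : ℝ) ≤ 1 := Real.rpow_le_one_of_one_le_of_nonpos hR1 (by norm_num)
  have g6 : R ^ (-5 : ℝ) ≤ 1 := Real.rpow_le_one_of_one_le_of_nonpos hR1 (by norm_num)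
  have g7 : 1 ≤ R ^ (9 / 5 : ℝ) := Real.one_le_rpow hR1 (by norm_num)
  have p1 : 0 < R ^ (-(9 / 2) : ℝ) := Real.rpow_pos_of_pos hR0 _
  have p2 : 0 < R ^ (-5 : ℝ) := Real.rpow_pos_of_pos hR0 _
  have g8 : (R ^ (-8 : ℝ) * (8 * R ^ (1 / 2 : ℝ)) + R ^ (-8 : ℝ)) * R ^ (3 : ℝ) ≤ 9 := by
    rw [add_mul, e2, e3]
    linarith
  have g9 : 0 ≤ (R ^ (-8 : ℝ) * (8 * R ^ (1 / 2 : ℝ)) + R ^ (-8 : ℝ)) * R ^ (3 : ℝ) := by positivity
  have g10 : (R ^ (-8 : ℝ) * (8 * R ^ (1 / 2 : ℝ)) + R ^ (-8 : ℝ)) * R ^ (3 : ℝ) * V ≤ 9 * |V| := by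
    calc (R ^ (-8 : ℝ) * (8 * R ^ (1 / 2 : ℝ)) + R ^ (-8 : ℝ)) * R ^ (3 : ℝ) * V
        ≤ (R ^ (-8 : ℝ) * (8 * R ^ (1 / 2 : ℝ)) + R ^ (-8 : ℝ)) * R ^ (3 : ℝ) * |V| := mul_le_mul_of_nonneg_left (le_abs_self V) g9
      _ ≤ 9 * |V| := mul_le_mul_of_nonneg_right g8 (abs_nonneg V)
  have g11 : 9 * |V| ≤ 9 * |V| * R ^ (9 / 5 : ℝ) := by
    have := mul_le_mul_of_nonneg_left g7 (by positivity : 0 ≤ 9 * |V|)
    linarith
  have g12 : (1 + 9 * |V|) * R ^ (9 / 5 : ℝ) ≤ R ^ (3 / 40 : ℝ) * R ^ (9 / 5 : ℝ) := mul_le_mul_of_nonneg_right g2 (by positivity)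
  rw [e1]
  linarith

/-- packets of a family are continuous with bounded support -/
theorem NAD_FH (hNFR : NFR_stmt) {k : ℝ} {B : ℕ → ℝ} {D : Dyn} {K : ℕ} {η m R t : ℝ} {f : SL(2, ℝ) × ℝ → ℂ → ℂ} (hk : 0 < k) (hD : OKN ⊥ k B D)
    (hη : 0 < η) (hη4 : η ≤ 1 / 4) (hm : 0 ≤ m) (hRη : R ^ (-(1 / 2) + η) ≤ 1 / 4) (hW : 2 * R ^ (-(1 / 4) : ℝ) ≤ k) (hR : 1 ≤ R)
    (hf : FaN ⊥ k D K η m R t f) (p : SL(2, ℝ) × ℝ) (hp : p ∈ GW 2 R) : FH ⊥ univ (pF D t f p) := by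
  obtain ⟨C, -, h⟩ := hNFR k hk
  obtain ⟨h1, h2, -⟩ := h ⊥ univ B D K η m R t f (Or.inr ⟨rfl, rfl⟩) hD hη hη4 hm hRη hW hR hf
  have hpk : |p.2| ≤ k := by
    have := hp.2
    rw [abs_le]
    exact ⟨by linarith [this.1], by linarith [this.2]⟩
  refine ⟨?_, ?_, ?_⟩
  · have h3 : ContinuousOn (fun z : ℍ => ((p, z) : (SL(2, ℝ) × ℝ) × ℍ)) univ := by fun_prop
    exact continuousOn_univ.1 (h1.comp h3 fun z _ => hpk)
  · intro γ z
    have h3 : γ = 1 := Subsingleton.elim _ _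
    rw [h3, one_smul]
  · refine ⟨1 + dist (D.fl p.2 t p.1 • I : ℍ) I, fun z _ hz => ?_⟩
    have h3 := ((h2 p hp z).2 hz).1
    have h4 := dist_triangle z (D.fl p.2 t p.1 • I : ℍ) I
    rw [dist_comm z (D.fl p.2 t p.1 • I : ℍ)] at h4
    linarith

/-- products are integrable -/
theorem NAD_mul {φ ψ : ℍ → ℂ} (hφ : FH ⊥ univ φ) (hψ : FH ⊥ univ ψ) : Integrable (fun z => φ z * conj (ψ z)) := by
  obtain ⟨b, hb⟩ := hφ.supp
  have h1 : IntegrableOn (fun z => φ z * conj (ψ z)) univ :=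
    VQA_int MeasurableSet.univ (hφ.cont.mul (Complex.continuous_conj.comp hψ.cont)) ⟨b, fun z hz h0 => hb z hz (left_ne_zero_of_mul h0)⟩
  rwa [integrableOn_univ] at h1

/-- differences -/
theorem NAD_sub {φ ψ : ℍ → ℂ} (hφ : FH ⊥ univ φ) (hψ : FH ⊥ univ ψ) : FH ⊥ univ (fun z => φ z - ψ z) := by
  obtain ⟨b, hb⟩ := hφ.supp
  obtain ⟨c, hc⟩ := hψ.supp
  refine ⟨hφ.cont.sub hψ.cont, fun γ z => by rw [hφ.inv, hψ.inv], max b c, fun z hz h0 => ?_⟩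
  by_cases h1 : φ z = 0
  · have h2 : ψ z ≠ 0 := by
      intro h2
      apply h0
      rw [h1, h2, sub_zero]
    exact (hc z hz h2).trans (le_max_right _ _)
  · exact (hb z hz h1).trans (le_max_left _ _)

/-- Cauchy-Schwarz -/
theorem NAD_cs {φ ψ : ℍ → ℂ} (hφ : FH ⊥ univ φ) (hψ : FH ⊥ univ ψ) (a b : ℝ) (h1 : nn univ φ ≤ a ^ 2) (h2 : nn univ ψ ≤ b ^ 2) (ha : 0 ≤ a) (hb : 0 ≤ b) :
    ‖∫ z : ℍ, φ z * conj (ψ z)‖ ≤ a * b := by
  have h3 : ‖∫ z : ℍ, φ z * conj (ψ z)‖ ≤ ∫ z : ℍ, ‖φ z‖ * ‖ψ z‖ := by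
    refine (norm_integral_le_integral_norm _).trans (le_of_eq ?_)
    refine integral_congr_ae (Eventually.of_forall fun z => ?_)
    show ‖φ z * conj (ψ z)‖ = ‖φ z‖ * ‖ψ z‖
    rw [norm_mul, RCLike.norm_conj]
  have h4 := VSA_csn (Or.inr ⟨rfl, rfl⟩) hφ hψ
  rw [Measure.restrict_univ] at h4
  refine h3.trans (h4.trans ?_)
  exact mul_le_mul (Real.sqrt_le_iff.2 ⟨ha, h1⟩) (Real.sqrt_le_iff.2 ⟨hb, h2⟩) (Real.sqrt_nonneg _) ha

/-- boxes are monotone -/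
theorem NAD_Nb {s s' : ℝ} {p q : SL(2, ℝ) × ℝ} (h : s ≤ s') (hn : Nb s p q) : Nb s' p q := by
  refine ⟨?_, hn.2.trans_le h⟩
  rcases hn.1 with h1 | h1
  · exact Or.inl fun i j => (h1 i j).trans_le h
  · exact Or.inr fun i j => (h1 i j).trans_le h

/-- the pairing with a small function -/
theorem NAD_small {f g : ℍ → ℂ} {G : ℍ → ℂ} (hf : FH ⊥ univ f) (hg : FH ⊥ univ g) (hG : FH ⊥ univ G) (s b : ℝ) (hs : 0 ≤ s) (hfg : ∀ z, ‖f z - g z‖ ≤ s)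
    (hb : ∫ z : ℍ, ‖G z‖ ≤ b) : ‖(∫ z : ℍ, conj (g z) * G z) - ∫ z : ℍ, conj (f z) * G z‖ ≤ s * b := by
  have e : ∀ h : ℍ → ℂ, FH ⊥ univ h → Integrable (fun z => conj (h z) * G z) := by
    intro h hh
    have := NAD_mul hG hh
    refine this.congr (Eventually.of_forall fun z => ?_)
    exact mul_comm _ _
  have iG : Integrable (fun z => ‖G z‖) := by
    obtain ⟨b, hb⟩ := hG.supp
    have h1 : IntegrableOn (fun z => ‖G z‖) univ :=
      VQA_int MeasurableSet.univ hG.cont.norm ⟨b, fun z hz h0 => hb z hz (fun h1 => h0 (by rw [h1, norm_zero]))⟩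
    rwa [integrableOn_univ] at h1
  rw [← integral_sub (e g hg) (e f hf)]
  have h1 : ‖∫ z : ℍ, (conj (g z) * G z - conj (f z) * G z)‖ ≤ ∫ z : ℍ, s * ‖G z‖ := by
    refine norm_integral_le_of_norm_le (iG.const_mul s) (Eventually.of_forall fun z => ?_)
    have e1 : conj (g z) * G z - conj (f z) * G z = conj (g z - f z) * G z := by
      rw [map_sub]
      ring
    rw [e1, norm_mul, RCLike.norm_conj, norm_sub_rev]
    exact mul_le_mul_of_nonneg_right (hfg z) (norm_nonneg _)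
  rw [integral_const_mul] at h1
  exact h1.trans (mul_le_mul_of_nonneg_left hb hs)

theorem NAD_proof (hNAW : NAW_stmt) (hNUL : NUL_stmt) (hNNP : NNP_stmt) (hND0 : ND0_stmt) (hNFM : NFM_stmt) (hNNV : NNV_stmt) (hNUM : NUM_stmt)
    (hNFR : NFR_stmt) : NAD_stmt := by
  intro k hk
  obtain ⟨C1, hC1, h1⟩ := hNAW k hk
  obtain ⟨C2, hC2, h2⟩ := hNUL k hk
  obtain ⟨C3, hC3, h3⟩ := hNNP k hk
  obtain ⟨C4, hC4, h4⟩ := hND0 k hk
  obtain ⟨C5, hC5, h5⟩ := hNFM k hk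
  obtain ⟨C6, hC6, h6⟩ := hNNV k hk
  obtain ⟨C7, hC7, h7⟩ := hNUM k hk
  obtain ⟨C8, hC8, h8⟩ := hNFR k hk
  obtain ⟨C, hCe⟩ : ∃ C, C = C1 + C2 + C3 + C4 + 4 * C5 + C6 + C7 + C8 + 8 := ⟨_, rfl⟩
  refine ⟨C, by linarith, ?_⟩
  intro ch B A e ζ2 hch hA hRg hz12
  obtain ⟨he0, hz0, hzz2, hCe2, hCz2⟩ := hRg
  have C0 : 0 < C := by linarith
  have e0 : 0 < A.e3 := hA.e3
  have z10 : 0 < A.z1 := lt_of_lt_of_le (mul_pos C0 hz0) hA.z1
  have z20 : 0 < A.z2 := lt_of_lt_of_le (mul_pos C0 z10) hA.z2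
  have ζ0 : 0 < ζ2 := lt_of_lt_of_le z10 hz12
  have m1 : (1 : ℝ) ≤ A.m := by exact_mod_cast hA.m
  have hz1 : A.z ≤ A.z1 := by nlinarith [hA.z1]
  have hRg2 : ∀ C', 1 ≤ C' → C' ≤ C → Rg C' e A.z ζ2 := by
    intro C' h h'
    exact ⟨he0, hz0, hzz2, (mul_le_mul_of_nonneg_right h' he0).trans hCe2, (mul_le_mul_of_nonneg_right h' ζ0.le).trans hCz2⟩
  have hRg1 : ∀ C', 1 ≤ C' → C' ≤ C → Rg C' A.e3 A.z A.z1 := by
    intro C' h h'
    refine ⟨e0.le, hz0, hz1, ?_, ?_⟩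
    · exact ((mul_le_mul_of_nonneg_right h' e0.le).trans hA.z).trans hz1
    · have g1 := (mul_le_mul_of_nonneg_right h' z10.le).trans ((mul_le_mul_of_nonneg_left hz12 C0.le).trans hCz2)
      exact g1
  have hAd : ∀ C', 1 ≤ C' → C' ≤ C → Adm C' A := fun C' h h' => VMA_adm hA (by linarith) h'
  obtain ⟨R1, hR1, g1⟩ := h1 ch e A.z ζ2 B hch (hRg2 C1 hC1 (by linarith))
  obtain ⟨R2, hR2, g2⟩ := h2 ch e A.z ζ2 8 B hch (hRg2 C2 hC2 (by linarith))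
  obtain ⟨R2', hR2', g2'⟩ := h2 ch A.e3 A.z A.z1 8 B hch (hRg1 C2 hC2 (by linarith))
  obtain ⟨R3, hR3, g3⟩ := h3 ch e A.z ζ2 B hch (hRg2 C3 hC3 (by linarith))
  obtain ⟨R4, hR4, g4⟩ := h4 ch 0 A.e3 A.z A.z1 ζ2 8 hch (hRg1 C4 hC4 (by linarith)) hz12
    ((mul_le_mul_of_nonneg_right (by linarith : C4 ≤ C) ζ0.le).trans hCz2)
  obtain ⟨R5, hR5, g5⟩ := h5 ch 0 e A.z ζ2 B hch (hRg2 C5 hC5 (by linarith))
  obtain ⟨R5', hR5', g5'⟩ := h5 ch 0 A.e3 A.z A.z1 B hch (hRg1 C5 hC5 (by linarith))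
  obtain ⟨R7, hR7, g7⟩ := h7 ch B A hch (hAd C7 hC7 (by linarith))
  obtain ⟨R9, hR9, g9⟩ := NAD_num k C6 hk
  refine ⟨R1 + R2 + R2' + R3 + R4 + R5 + R5' + R7 + R9, by linarith, ?_⟩
  intro R t Γ D p q hR hD' hp hq ht hst
  have hRpos : 1 ≤ R := by linarith
  have hR0 : 0 < R := by linarith
  have hlog : 0 ≤ Real.log R := Real.log_nonneg hRpos
  have hD : OKN ⊥ k B D := NAD_bot hD'
  obtain ⟨n1, n2, n3⟩ := g9 R (by linarith)
  have hσ0 : 0 ≤ A.sg R := mul_nonneg e0.le hlog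
  have hX : Dm (⊥ : Subgroup SL(2, ℝ)) univ := Or.inr ⟨rfl, rfl⟩
  have hw0 : 0 ≤ R ^ (-(1 / 4) : ℝ) := Real.rpow_nonneg hR0.le _
  have hpW : p ∈ GW 2 R := ⟨mem_univ _, by have := hp.1; linarith, by have := hp.2; linarith⟩
  have hin : ∀ x ∈ GW 2 R, |x.2| ≤ k := by
    intro x hx
    have := hx.2
    rw [abs_le]
    exact ⟨by linarith [this.1], by linarith [this.2]⟩
  have hη0 : 0 < C5 * ζ2 := by positivity
  have hη4 : C5 * ζ2 ≤ 1 / 4 := by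
    have := (mul_le_mul_of_nonneg_right (by linarith : 4 * C5 ≤ C) ζ0.le).trans hCz2
    linarith
  have hRη : R ^ (-(1 / 2) + C5 * ζ2) ≤ 1 / 4 := (Real.rpow_le_rpow_of_exponent_le hRpos (by linarith)).trans n2
  have hC2ζ : C2 * ζ2 ≤ 1 := (mul_le_mul_of_nonneg_right (by linarith : C2 ≤ C) ζ0.le).trans hCz2
  -- the families
  obtain ⟨f1, -, f2, -, f3⟩ := g5 R (A.sg R) ⊥ D (by linarith) hD (by rw [abs_of_nonneg hσ0]; linarith)
  obtain ⟨f4, -, -, f5, -⟩ := g5 R t ⊥ D (by linarith) hD (by rw [abs_of_nonneg ht]; linarith)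
  obtain ⟨f6, -, -, f7, -⟩ := g5 R (A.sg R + t) ⊥ D (by linarith) hD (by rw [abs_of_nonneg (by linarith)]; linarith)
  obtain ⟨-, -, -, f8, -⟩ := g5 R (A.sg R) ⊥ D (by linarith) hD (by rw [abs_of_nonneg hσ0]; linarith)
  have hm0 : 0 ≤ R ^ (3 / 2 + C5 * ζ2) := Real.rpow_nonneg hR0.le _
  have F1 : FH ⊥ univ (psi D ch A.z ζ2 R (A.sg R) p) := by
    have := NAD_FH hNFR hk hD hη0 hη4 hm0 hRη n1 hRpos f1 p hpW
    rwa [show pF D (A.sg R) (pv D ch A.z ζ2 R (A.sg R)) p = psi D ch A.z ζ2 R (A.sg R) p from funext fun z => f8 p z] at this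
  have F2 : FH ⊥ univ (psi D ch A.z ζ2 R (A.sg R + t) p) := by
    have := NAD_FH hNFR hk hD hη0 hη4 hm0 hRη n1 hRpos f6 p hpW
    rwa [show pF D (A.sg R + t) (pv D ch A.z ζ2 R (A.sg R + t)) p = psi D ch A.z ζ2 R (A.sg R + t) p from funext fun z => f7 p z] at this
  have F3 : ∀ x ∈ GW 2 R, FH ⊥ univ (Gp D.U ch A.z R x) := by
    intro x hx
    have := NAD_FH hNFR hk hD hη0 hη4 hm0 hRη n1 hRpos f2 x hx
    rwa [show pF D 0 (fG D ch A.z R) x = Gp D.U ch A.z R x from funext fun z => f3 x z] at this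
  obtain ⟨-, -, -, -, k1, -⟩ := h8 ⊥ univ B D 0 (C5 * ζ2) (R ^ (3 / 2 + C5 * ζ2)) R 0 (fG D ch A.z R) hX hD hη0 hη4 hm0 hRη n1 hRpos f2
  obtain ⟨-, -, -, k2, k3, k4⟩ := h8 ⊥ univ B D 0 (C5 * ζ2) (R ^ (3 / 2 + C5 * ζ2)) R t (pv D ch A.z ζ2 R t) hX hD hη0 hη4 hm0 hRη n1 hRpos f4
  obtain ⟨a0, ha0⟩ : ∃ a0, a0 = aF D R 0 (fG D ch A.z R) (psi D ch A.z ζ2 R (A.sg R) p) := ⟨_, rfl⟩
  obtain ⟨a1, ha1⟩ : ∃ a1, a1 = aF D R t (pv D ch A.z ζ2 R t) (Gp D.U ch A.z R q) := ⟨_, rfl⟩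
  have A0 : FP ⊥ univ a0 := by rw [ha0]; exact k1 _ F1
  have A1 : FP ⊥ univ a1 := by rw [ha1]; exact k3 _ (F3 q hq)
  have hdual := k4 _ a0 (F3 q hq) A0
  rw [← ha1] at hdual
  have hPW : PW univ 2 R = GW 2 R := by
    ext x
    simp [PW, GW, dG]
  rw [hPW] at hdual
  -- values of a0 and a1
  have v0 : ∀ x ∈ GW 2 R, a0 x = QF D.U ch A.z R (psi D ch A.z ζ2 R (A.sg R) p) x := by
    intro x hx
    rw [ha0]
    unfold aF QF
    rw [Set.indicator_of_mem hx]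
    simp only [f3]
  have v1 : ∀ x ∈ GW 2 R, a1 x = ∫ z : ℍ, conj (psi D ch A.z ζ2 R t x z) * Gp D.U ch A.z R q z := by
    intro x hx
    rw [ha1]
    unfold aF
    rw [Set.indicator_of_mem hx]
    simp only [f5]
    exact integral_congr_ae (Eventually.of_forall fun z => mul_comm _ _)
  have v1' : ∀ x, x ∉ GW 2 R → a1 x = 0 := by
    intro x hx
    rw [ha1]
    unfold aF
    rw [Set.indicator_of_notMem hx]
  -- the other cut-off
  have hη0' : 0 < C5 * A.z1 := by positivity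
  have hη4' : C5 * A.z1 ≤ 1 / 4 := (mul_le_mul_of_nonneg_left hz12 (by linarith)).trans hη4
  have hRη' : R ^ (-(1 / 2) + C5 * A.z1) ≤ 1 / 4 := (Real.rpow_le_rpow_of_exponent_le hRpos (by linarith)).trans n2
  have hm0' : 0 ≤ R ^ (3 / 2 + C5 * A.z1) := Real.rpow_nonneg hR0.le _
  obtain ⟨f1', -, -, f8', -⟩ := g5' R (A.sg R) ⊥ D (by linarith) hD (by rw [abs_of_nonneg hσ0]; exact le_rfl)
  have F4 : FH ⊥ univ (psi D ch A.z A.z1 R (A.sg R) p) := by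
    have := NAD_FH hNFR hk hD hη0' hη4' hm0' hRη' n1 hRpos f1' p hpW
    rwa [show pF D (A.sg R) (pv D ch A.z A.z1 R (A.sg R)) p = psi D ch A.z A.z1 R (A.sg R) p from funext fun z => f8' p z] at this
  have hcut : ∀ z, ‖psi D ch A.z ζ2 R (A.sg R) p z - psi D ch A.z A.z1 R (A.sg R) p z‖ ≤ R ^ (-8 : ℝ) := by
    intro z
    exact NAD_pk (g4 R ⊥ B D p (A.sg R) (by linarith) hD (hin p hpW) (by rw [abs_of_nonneg hσ0]; exact le_rfl)).2 _
  obtain ⟨u1, -, -, u4, -⟩ := g7 R ⊥ univ D (by linarith) hX hD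
  obtain ⟨bu, hbu⟩ := u1.bdd
  obtain ⟨b0, hb0⟩ := A0.bdd
  have hb1 : ∀ x, ‖a1 x‖ ≤ R ^ (3 : ℝ) := by
    intro x
    by_cases hx : x ∈ GW 2 R
    · rw [v1 x hx]
      exact (g2 R t ⊥ D x q (by linarith) hD ht (by linarith) hx hq).1.trans (Real.rpow_le_rpow_of_exponent_le hRpos (by linarith))
    · rw [v1' x hx, norm_zero]
      exact Real.rpow_nonneg hR0.le _
  have hS : mP {x | a1 x ≠ 0} ≤ ENNReal.ofReal C6 := by
    obtain ⟨-, -, j3⟩ := h6 ⊥ B D hD R n1 hRpos q.1 0 t (1 / 4) (by norm_num) le_rfl le_rfl (by linarith)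
    refine (measure_mono fun x hx => ?_).trans j3
    have hx0 : a1 x ≠ 0 := hx
    have hxW : x ∈ GW 2 R := by
      by_contra h
      exact hx0 (v1' x h)
    refine ⟨hxW, ?_⟩
    rw [v1 x hxW] at hx0
    have := (g2 R t ⊥ D x q (by linarith) hD ht (by linarith) hxW hq).2.1 hx0
    rw [dist_comm]
    linarith
  have hd : ∀ x ∈ GW 2 R, ‖us D ch A R p x - conj (a0 x)‖ ≤ R ^ (-8 : ℝ) * (8 * R ^ (1 / 2 : ℝ)) + R ^ (-8 : ℝ) := by
    intro x hx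
    have e0 : conj (a0 x) = ∫ z : ℍ, conj (psi D ch A.z ζ2 R (A.sg R) p z) * Gp D.U ch A.z R x z := by
      rw [v0 x hx]
      unfold QF
      rw [← integral_conj]
      refine integral_congr_ae (Eventually.of_forall fun z => ?_)
      simp only [map_mul, Complex.conj_conj]
    have e1 := NAD_small F1 F4 (F3 x hx) (R ^ (-8 : ℝ)) (8 * R ^ (1 / 2 : ℝ)) (Real.rpow_nonneg hR0.le _) hcut
      (g3 R t ⊥ D x (by linarith) hD (hin x hx) ht (by linarith)).2.2.1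
    rw [← e0] at e1
    have e8 : 0 ≤ R ^ (-8 : ℝ) := Real.rpow_nonneg hR0.le _
    by_cases hn : Nb (A.r R) (D.ph (A.sg R) p) x
    · have e2 : us D ch A R p x = ∫ z : ℍ, conj (psi D ch A.z A.z1 R (A.sg R) p z) * Gp D.U ch A.z R x z := by
        unfold us
        rw [if_pos ⟨hpW.2, hx.2, hn⟩]
      rw [e2]
      linarith
    · have e2 : us D ch A R p x = 0 := by
        unfold us
        rw [if_neg (fun h => hn h.2.2)]
      have e3 : ¬Nb (R ^ (-(1 / 2) + C2 * A.z1)) (D.ph (A.sg R) p) x := by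
        intro h
        refine hn (NAD_Nb ?_ h)
        unfold Prm.r
        refine Real.rpow_le_rpow_of_exponent_le hRpos ?_
        have := (mul_le_mul_of_nonneg_right (by linarith : C2 ≤ C) z10.le).trans hA.z2
        linarith
      have e4 := (g2' R (A.sg R) ⊥ D p x (by linarith) hD hσ0 le_rfl hpW hx).2.2.1 e3
      rw [e2]
      have e5 : (0 : ℂ) - conj (a0 x) = ((∫ z : ℍ, conj (psi D ch A.z A.z1 R (A.sg R) p z) * Gp D.U ch A.z R x z) - conj (a0 x)) -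
          ∫ z : ℍ, conj (psi D ch A.z A.z1 R (A.sg R) p z) * Gp D.U ch A.z R x z := by ring
      rw [e5]
      exact (norm_sub_le _ _).trans (add_le_add e1 e4)
  have hI := NAD_int mP (GW 2 R) (MeasurableSet.univ.prod measurableSet_Icc) (us D ch A R p) a0 a1 (u1.meas.comp measurable_prodMk_left) A0.meas A1.meas bu b0
    (R ^ (3 : ℝ)) (R ^ (-8 : ℝ) * (8 * R ^ (1 / 2 : ℝ)) + R ^ (-8 : ℝ)) C6 (hbu p) hb0 hb1 (Real.rpow_nonneg hR0.le _) (by linarith) (by positivity)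
    (fun x hx => by
      by_contra h
      exact hx (u4 p x h).2) hS hd
  have hL : ∫ x, us D ch A R p x * (∫ z : ℍ, conj (psi D ch A.z ζ2 R t x z) * Gp D.U ch A.z R q z) ∂mP = ∫ x, us D ch A R p x * a1 x ∂mP := by
    refine integral_congr_ae (Eventually.of_forall fun x => ?_)
    show us D ch A R p x * _ = us D ch A R p x * a1 x
    by_cases hx : x ∈ GW 2 R
    · rw [v1 x hx]
    · have h0 : us D ch A R p x = 0 := by
        by_contra h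
        exact hx (u4 p x h).2
      rw [h0, zero_mul, zero_mul]
  -- the second part
  have hs : ∀ z, sF D R t (pv D ch A.z ζ2 R t) a0 z = sF D R t (pv D ch A.z ζ2 R t) (QF D.U ch A.z R (psi D ch A.z ζ2 R (A.sg R) p)) z := by
    intro z
    unfold sF
    refine setIntegral_congr_fun (MeasurableSet.univ.prod measurableSet_Icc) fun x hx => ?_
    show a0 x * _ = _
    rw [v0 x hx]
  have F5 : FH ⊥ univ (sF D R t (pv D ch A.z ζ2 R t) a0) := k2 _ A0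
  have F6 := NAD_sub F5 F2
  have hw : nn univ (fun z => sF D R t (pv D ch A.z ζ2 R t) a0 z - psi D ch A.z ζ2 R (A.sg R + t) p z) ≤ (R ^ (4 / 5 : ℝ)) ^ 2 := by
    have e1 := g1 R (A.sg R) t ⊥ D p (by linarith) hD hp hσ0 ht hst
    simp only [← hs] at e1
    refine e1.trans (le_of_eq ?_)
    rw [← Real.rpow_natCast, ← Real.rpow_mul hR0.le]
    norm_num
  have hcs := NAD_cs (F3 q hq) F6 R (R ^ (4 / 5 : ℝ)) (g3 R t ⊥ D q (by linarith) hD (hin q hq) ht (by linarith)).2.1 hw hR0.le (Real.rpow_nonneg hR0.le _)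
  have hR95 : R * R ^ (4 / 5 : ℝ) = R ^ (9 / 5 : ℝ) := by
    have : R ^ (9 / 5 : ℝ) = R ^ (1 : ℝ) * R ^ (4 / 5 : ℝ) := by
      rw [← Real.rpow_add hR0]
      norm_num
    rw [this, Real.rpow_one]
  rw [hR95] at hcs
  have hdiff : (∫ x in GW 2 R, a1 x * conj (a0 x) ∂mP) - ∫ z : ℍ, conj (psi D ch A.z ζ2 R (A.sg R + t) p z) * Gp D.U ch A.z R q z =
      ∫ z : ℍ, Gp D.U ch A.z R q z * conj (sF D R t (pv D ch A.z ζ2 R t) a0 z - psi D ch A.z ζ2 R (A.sg R + t) p z) := by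
    rw [hdual, Measure.restrict_univ]
    have e1 : ∫ z : ℍ, conj (psi D ch A.z ζ2 R (A.sg R + t) p z) * Gp D.U ch A.z R q z = ∫ z : ℍ, Gp D.U ch A.z R q z * conj (psi D ch A.z ζ2 R (A.sg R + t) p z) :=
      integral_congr_ae (Eventually.of_forall fun z => mul_comm _ _)
    rw [e1, ← integral_sub (NAD_mul (F3 q hq) F5) (NAD_mul (F3 q hq) F2)]
    refine integral_congr_ae (Eventually.of_forall fun z => ?_)
    show _ = Gp D.U ch A.z R q z * conj (_ - _)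
    rw [map_sub, mul_sub]
  rw [← hdiff] at hcs
  rw [hL]
  have hfin : (∫ x, us D ch A R p x * a1 x ∂mP) - ∫ z : ℍ, conj (psi D ch A.z ζ2 R (A.sg R + t) p z) * Gp D.U ch A.z R q z =
      ((∫ x, us D ch A R p x * a1 x ∂mP) - ∫ x in GW 2 R, a1 x * conj (a0 x) ∂mP) +
      ((∫ x in GW 2 R, a1 x * conj (a0 x) ∂mP) - ∫ z : ℍ, conj (psi D ch A.z ζ2 R (A.sg R + t) p z) * Gp D.U ch A.z R q z) := by ring
  rw [hfin]
  exact (norm_add_le _ _).trans ((add_le_add hI hcs).trans n3)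

end

end Pool.Agent.VN
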